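import Pool.Agent.H72.FlatA4

set_option autoImplicit false

namespace Pool.Agent.Results.MP_6a819e_al.FCC

open H72.FlatAct

universe u

/-- Every right act over every monoid has a flat cover. -/
theorem result (S : Type u) [Monoid S] (A : Type u) [MulAction Sᵐᵒᵖ A] [Nonempty A] :
    ∃ (F : Type u) (_ : MulAction Sᵐᵒᵖ F) (g : F →[Sᵐᵒᵖ] A), Nonempty F ∧ Flat S F ∧
      (∀ (F' : Type u) [MulAction Sᵐᵒᵖ F'], Flat S F' → ∀ h : F' →[Sᵐᵒᵖ] A,
        ∃ f : F' →[Sᵐᵒᵖ] F, g.comp f = h) ∧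
      ∀ f : F →[Sᵐᵒᵖ] F, g.comp f = g → Function.Bijective f := by
  obtain ⟨F, _, g, h1, h2, h3⟩ := cover S A
  obtain ⟨a⟩ := ‹Nonempty A›
  obtain ⟨f, -⟩ := h2 S flat_self ⟨fun s => MulOpposite.op s • a, fun s t => by
    simp [mul_smul]⟩
  refine ⟨F, inferInstance, g, ⟨f 1⟩, h1, fun F' _ hF' h => ?_, fun f hf => ?_⟩
  · obtain ⟨f, hf⟩ := h2 F' hF' h
    exact ⟨f, MulActionHom.ext hf⟩
  · exact h3 ⟨fun x => f x, fun s x => map_smul f s x, fun x => DFunLike.congr_fun hf x⟩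

end Pool.Agent.Results.MP_6a819e_al.FCC
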